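import Pool.Agent.Helper26.D5.Sheet
import Pool.Agent.Helper78.D4.BF

/-!
# Row BFS of the sheet D5: rounding (Beck and Fiala) with a linear functional
-/

set_option autoImplicit false
set_option linter.unusedSectionVars false

namespace Pool.Agent.Helper78.D5

open Finset Pool.Agent.Helper33.DP Pool.Agent.Helper63.D4 Pool.Agent.Helper26.D5
open Pool.Agent.Helper78.D4

section core

variable {ι K : Type} [Fintype ι] [DecidableEq ι] [Fintype K] [DecidableEq K]

/-- The first time at which an entry becomes an integer; the time is not negative. -/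
theorem exists_step' (z u : ι → ℝ) (hu : ∀ i, i ∉ NI z → u i = 0) (hne : ∃ i, u i ≠ 0) :
    ∃ t : ℝ, 0 ≤ t ∧ (∀ i, (⌊z i⌋ : ℝ) ≤ z i + t * u i ∧ z i + t * u i ≤ ⌈z i⌉) ∧
      ∃ i ∈ NI z, i ∉ NI (fun i => z i + t * u i) := by
  classical
  let M : Finset ι := univ.filter (fun i => u i ≠ 0)
  have hM : M.Nonempty := by
    obtain ⟨i, hi⟩ := hne
    exact ⟨i, Finset.mem_filter.2 ⟨mem_univ _, hi⟩⟩
  let τ : ι → ℝ := fun i => if 0 < u i then ((⌈z i⌉ : ℝ) - z i) / u i else
    (z i - ⌊z i⌋) / (-u i)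
  obtain ⟨j, hj, hmin⟩ := Finset.exists_min_image M τ hM
  have hfl : ∀ i, (⌊z i⌋ : ℝ) ≤ z i := fun i => Int.floor_le _
  have hcl : ∀ i, z i ≤ ⌈z i⌉ := fun i => Int.le_ceil _
  have hτ0 : 0 ≤ τ j := by
    show 0 ≤ (if 0 < u j then ((⌈z j⌉ : ℝ) - z j) / u j else (z j - ⌊z j⌋) / (-u j))
    split_ifs with h
    · exact div_nonneg (sub_nonneg.2 (hcl j)) h.le
    · exact div_nonneg (sub_nonneg.2 (hfl j)) (by linarith)
  refine ⟨τ j, hτ0, ?_, j, ?_, ?_⟩
  · intro i
    by_cases h0 : u i = 0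
    · rw [h0, mul_zero, add_zero]
      exact ⟨hfl i, hcl i⟩
    · have h1 : τ j ≤ τ i := hmin i (Finset.mem_filter.2 ⟨mem_univ _, h0⟩)
      rcases lt_or_gt_of_ne h0 with h2 | h2
      · have h3 : τ i = (z i - ⌊z i⌋) / (-u i) := if_neg (by linarith)
        rw [h3, le_div_iff₀ (by linarith)] at h1
        have h4 : τ j * u i ≤ 0 := mul_nonpos_of_nonneg_of_nonpos hτ0 h2.le
        have := hcl i
        constructor <;> linarith
      · have h3 : τ i = ((⌈z i⌉ : ℝ) - z i) / u i := if_pos h2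
        rw [h3, le_div_iff₀ h2] at h1
        have h4 : 0 ≤ τ j * u i := mul_nonneg hτ0 h2.le
        have := hfl i
        constructor <;> linarith
  · by_contra h
    exact (Finset.mem_filter.1 hj).2 (hu j h)
  · rw [mem_NI, not_not]
    have h0 : u j ≠ 0 := (Finset.mem_filter.1 hj).2
    rcases lt_or_gt_of_ne h0 with h2 | h2
    · have h3 : τ j = (z j - ⌊z j⌋) / (-u j) := if_neg (by linarith)
      have h4 : z j + τ j * u j = (⌊z j⌋ : ℝ) := by
        rw [h3]
        field_simp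
        ring
      rw [h4, Int.fract_intCast]
    · have h3 : τ j = ((⌈z j⌉ : ℝ) - z j) / u j := if_pos h2
      have h4 : z j + τ j * u j = (⌈z j⌉ : ℝ) := by
        rw [h3]
        field_simp
        ring
      rw [h4, Int.fract_intCast]

/-- A direction in which all active sums are constant and the functional does not decrease. -/
theorem exists_dir' (h s₁ s₂ : ι → K) (c : ι → ℝ) (z : ι → ℝ)
    (hz : ∀ c, ∃ m : ℤ, ∑ i ∈ univ.filter (h · = c), z i = m) (hne : 0 < (NI z).card) :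
    ∃ u : ι → ℝ, (∀ i, i ∉ NI z → u i = 0) ∧ (∃ i, u i ≠ 0) ∧
      (∀ c, ∑ i ∈ univ.filter (h · = c), u i = 0) ∧
      (∀ c, 5 ≤ ((NI z).filter (s₁ · = c)).card → ∑ i ∈ univ.filter (s₁ · = c), u i = 0) ∧
      (∀ c, 5 ≤ ((NI z).filter (s₂ · = c)).card → ∑ i ∈ univ.filter (s₂ · = c), u i = 0) ∧
      0 ≤ ∑ i, c i * u i := by
  obtain ⟨u, hu1, hu2, hu3, hu4, hu5⟩ := exists_dir h s₁ s₂ z hz hne
  rcases le_total 0 (∑ i, c i * u i) with h0 | h0
  · exact ⟨u, hu1, hu2, hu3, hu4, hu5, h0⟩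
  · refine ⟨fun i => -u i, ?_, ?_, ?_, ?_, ?_, ?_⟩
    · intro i hi
      show -u i = 0
      rw [hu1 i hi, neg_zero]
    · obtain ⟨i, hi⟩ := hu2
      exact ⟨i, neg_ne_zero.2 hi⟩
    · intro k
      rw [Finset.sum_neg_distrib, hu3 k, neg_zero]
    · intro k hk
      rw [Finset.sum_neg_distrib, hu4 k hk, neg_zero]
    · intro k hk
      rw [Finset.sum_neg_distrib, hu5 k hk, neg_zero]
    · have h1 : ∑ i, c i * (-u i) = -∑ i, c i * u i := by
        rw [← Finset.sum_neg_distrib]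
        exact Finset.sum_congr rfl fun i _ => by ring
      rw [h1]
      linarith

theorem core' (h s₁ s₂ : ι → K) (c : ι → ℝ) : ∀ (F : ℕ) (z : ι → ℝ), (NI z).card = F →
    (∀ c, ∃ m : ℤ, ∑ i ∈ univ.filter (h · = c), z i = m) →
    ∃ z' : ι → ℤ, (∀ i, ⌊z i⌋ ≤ z' i ∧ z' i ≤ ⌈z i⌉) ∧
      (∀ c, ∑ i ∈ univ.filter (h · = c), (z' i : ℝ) = ∑ i ∈ univ.filter (h · = c), z i) ∧
      (∀ c, |∑ i ∈ univ.filter (s₁ · = c), ((z' i : ℝ) - z i)| ≤ 4) ∧
      (∀ c, |∑ i ∈ univ.filter (s₂ · = c), ((z' i : ℝ) - z i)| ≤ 4) ∧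
      ∑ i, c i * (z i - (z' i : ℝ)) ≤ 0 := by
  classical
  intro F
  induction F using Nat.strong_induction_on with
  | _ F ih =>
    intro z hF hz
    rcases Nat.eq_zero_or_pos F with h0 | h0
    · subst h0
      rw [Finset.card_eq_zero] at hF
      have h1 : ∀ i, (⌊z i⌋ : ℝ) = z i := fun i => int_of_not_mem (by rw [hF]; simp)
      refine ⟨fun i => ⌊z i⌋, fun i => ⟨le_rfl, Int.floor_le_ceil _⟩, fun c => ?_, ?_, ?_, ?_⟩
      · exact Finset.sum_congr rfl fun i _ => h1 i
      · intro c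
        rw [Finset.sum_eq_zero fun i _ => by rw [h1, sub_self]]
        norm_num
      · intro c
        rw [Finset.sum_eq_zero fun i _ => by rw [h1, sub_self]]
        norm_num
      · rw [Finset.sum_eq_zero fun i _ => by rw [h1, sub_self, mul_zero]]
    · obtain ⟨u, hu1, hu2, hu3, hu4, hu5, hu6⟩ := exists_dir' h s₁ s₂ c z hz (by omega)
      obtain ⟨t, ht0, ht1, j, hj1, hj2⟩ := exists_step' z u hu1 hu2
      set z₁ : ι → ℝ := fun i => z i + t * u i with hz₁
      have hsub : NI z₁ ⊆ (NI z).erase j := by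
        intro i hi
        rw [Finset.mem_erase]
        refine ⟨fun hij => hj2 (by rw [← hij]; exact hi), ?_⟩
        by_contra h2
        have h3 : z₁ i = z i := by
          simp only [hz₁]
          rw [hu1 i h2, mul_zero, add_zero]
        rw [mem_NI, h3] at hi
        exact h2 (mem_NI.2 hi)
      have hcard : (NI z₁).card < F := by
        have h2 := Finset.card_le_card hsub
        have h3 := Finset.card_erase_of_mem hj1
        omega
      have hs : ∀ (s : ι → K) (c : K), ∑ i ∈ univ.filter (s · = c), z₁ i =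
          ∑ i ∈ univ.filter (s · = c), z i + t * ∑ i ∈ univ.filter (s · = c), u i := by
        intro s c
        rw [Finset.mul_sum, ← Finset.sum_add_distrib]
      have hh : ∀ c, ∑ i ∈ univ.filter (h · = c), z₁ i = ∑ i ∈ univ.filter (h · = c), z i := by
        intro c
        rw [hs, hu3, mul_zero, add_zero]
      obtain ⟨z', hz1, hz2, hz3, hz4, hz5⟩ := ih _ hcard z₁ rfl (fun c => by rw [hh]; exact hz c)
      have hfc : ∀ i, ⌊z i⌋ ≤ z' i ∧ z' i ≤ ⌈z i⌉ := by
        intro i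
        have h2 : ⌊z i⌋ ≤ ⌊z₁ i⌋ := Int.le_floor.2 (ht1 i).1
        have h3 : ⌈z₁ i⌉ ≤ ⌈z i⌉ := Int.ceil_le.2 (ht1 i).2
        exact ⟨h2.trans (hz1 i).1, (hz1 i).2.trans h3⟩
      have hact : ∀ (s : ι → K) (c : K), ∑ i ∈ univ.filter (s · = c), u i = 0 →
          ∑ i ∈ univ.filter (s · = c), ((z' i : ℝ) - z i) =
          ∑ i ∈ univ.filter (s · = c), ((z' i : ℝ) - z₁ i) := by
        intro s c h2
        rw [Finset.sum_sub_distrib, Finset.sum_sub_distrib, hs, h2, mul_zero, add_zero]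
      refine ⟨z', hfc, fun c => by rw [hz2, hh], ?_, ?_, ?_⟩
      · intro c
        by_cases h2 : 5 ≤ ((NI z).filter (s₁ · = c)).card
        · rw [hact s₁ c (hu4 c h2)]
          exact hz3 c
        · exact small_class s₁ z z' hfc c h2
      · intro c
        by_cases h2 : 5 ≤ ((NI z).filter (s₂ · = c)).card
        · rw [hact s₂ c (hu5 c h2)]
          exact hz4 c
        · exact small_class s₂ z z' hfc c h2
      · have h2 : ∑ i, c i * (z i - (z' i : ℝ)) =
            ∑ i, c i * (z₁ i - (z' i : ℝ)) - t * ∑ i, c i * u i := by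
          rw [Finset.mul_sum, ← Finset.sum_sub_distrib]
          refine Finset.sum_congr rfl fun i _ => ?_
          simp only [hz₁]
          ring
        have h3 := mul_nonneg ht0 hu6
        rw [h2]
        linarith

end core

theorem BFS : ST_BFS := by
  classical
  intro w z n c hz hn
  let Z : Fin w × Fin w × Fin w → ℝ := fun i => z i.1 i.2.1 i.2.2
  obtain ⟨z', h1, h2, h3, h4, h7⟩ := core' (fun i : Fin w × Fin w × Fin w => (i.1, i.2.2))
    (fun i => (i.1, i.2.1)) (fun i => (i.2.1, i.2.2)) (fun i => c i.1 i.2.1 i.2.2) _ Z rfl (by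
      rintro ⟨a, b⟩
      refine ⟨(n a b : ℤ), ?_⟩
      rw [sum_ab Z a b]
      have := hn a b
      push_cast
      exact this)
  have hpos : ∀ i, 0 ≤ z' i := fun i =>
    le_trans (Int.floor_nonneg.2 (hz i.1 i.2.1 i.2.2)) (h1 i).1
  have hcast : ∀ i, (((z' i).toNat : ℕ) : ℝ) = (z' i : ℝ) := by
    intro i
    have := Int.toNat_of_nonneg (hpos i)
    exact_mod_cast this
  refine ⟨fun a x b => (z' (a, x, b)).toNat, ?_, ?_, ?_, ?_, ?_⟩
  · intro a b
    have h5 := h2 (a, b)
    rw [sum_ab (fun i => (z' i : ℝ)) a b, sum_ab Z a b] at h5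
    have h6 : (∑ x, (((z' (a, x, b)).toNat : ℕ) : ℝ)) = n a b := by
      rw [Finset.sum_congr rfl fun x _ => hcast (a, x, b), h5]
      exact hn a b
    exact_mod_cast h6
  · intro a x b h0
    have h5 := h1 (a, x, b)
    have h6 : Z (a, x, b) = 0 := h0
    rw [h6, Int.floor_zero, Int.ceil_zero] at h5
    have h7 : z' (a, x, b) = 0 := le_antisymm h5.2 h5.1
    show (z' (a, x, b)).toNat = 0
    rw [h7]
    rfl
  · intro a x
    have h5 := h3 (a, x)
    rw [sum_ax (fun i => (z' i : ℝ) - Z i) a x, Finset.sum_sub_distrib] at h5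
    rw [Finset.sum_congr rfl fun b _ => hcast (a, x, b)]
    exact h5
  · intro x b
    have h5 := h4 (x, b)
    rw [sum_xb (fun i => (z' i : ℝ) - Z i) x b, Finset.sum_sub_distrib] at h5
    rw [Finset.sum_congr rfl fun a _ => hcast (a, x, b)]
    exact h5
  · have h5 : ∑ i : Fin w × Fin w × Fin w, c i.1 i.2.1 i.2.2 * (Z i - (z' i : ℝ)) =
        ∑ a, ∑ x, ∑ b, c a x b * (z a x b - (((z' (a, x, b)).toNat : ℕ) : ℝ)) := by
      rw [Fintype.sum_prod_type]
      refine Finset.sum_congr rfl fun a _ => ?_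
      rw [Fintype.sum_prod_type]
      refine Finset.sum_congr rfl fun x _ => Finset.sum_congr rfl fun b _ => ?_
      rw [hcast (a, x, b)]
    rw [← h5]
    exact h7

end Pool.Agent.Helper78.D5
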