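import Pool.Agent.Helper78.D5.WT

/-!
# Row BT5 of the sheet D5: case B transposed
-/

set_option autoImplicit false

namespace Pool.Agent.Helper78.D5

open Finset Pool.Agent.Helper33.DP Pool.Agent.Helper63.D4 Pool.Agent.Helper26.D5
open Pool.Agent.Helper78.PL

variable {w : ℕ}

theorem good5_tr (hWT : ST_WT) {G : Gr w} {μ : Fin w → Fin w → ℕ} (h : Good5 G μ) :
    Good5 (tr G) (fun a b => μ b a) := by
  obtain ⟨h1, R, C, F, hR, hC, hF, h2⟩ := h
  refine ⟨fun a b hab => h1 b a (fun h' => hab (mem_tr.2 h')), fun a b => C b a,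
    fun a b => R b a, fun a b => F b a, fun a => hC a, fun b => hR b, ?_, ?_⟩
  · rw [psi_tr, lamG_tr hWT]
    exact hF
  · rw [card_tr]
    have h3 := bdd_tr h2
    have h4 : (fun a b : Fin w => ((μ b a : ℕ) : ℝ) + C b a + R b a + (e0 w + F b a)) =
        fun a b => (μ b a : ℝ) + R b a + C b a + (e0 w + F b a) := by
      funext a b
      ring
    rw [h4]
    exact h3

theorem stepC5_tr (hWT : ST_WT) {G₁ G₂ : Gr w} {μ : Fin w → Fin w → ℕ}
    (h : StepC5 (tr G₂) (tr G₁) (fun a b => μ b a)) : StepC5 G₁ G₂ μ := by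
  obtain ⟨z, h1, h2, h3⟩ := h
  refine ⟨fun a x b => z b x a, route_tr h1, ?_, ?_⟩
  · have h4 := good5_tr hWT h3
    rw [tr_tr] at h4
    exact h4
  · have h4 := good5_tr hWT h2
    rw [tr_tr] at h4
    exact h4

theorem BT5_of (hWT : ST_WT) (hB : ST_B5) : ST_BT5 := by
  intro w G G₁ G₂ μ hw hG hG₁ hG₂ hc hμ h1 h2
  apply stepC5_tr hWT
  refine hB w (tr G) (tr G₂) (tr G₁) _ hw (isCore_tr hG) (isCore_tr hG₂) (isCore_tr hG₁) ?_
    (good5_tr hWT hμ) ?_ ?_
  · rw [comp_tr, hc]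
  · rw [card_tr, card_tr]; exact h2
  · rw [card_tr, card_tr]; exact h1

theorem BT5 (hB : ST_B5) : ST_BT5 := BT5_of WT hB

end Pool.Agent.Helper78.D5
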