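import Pool.Agent.Helper26.D5.Sheet
import Pool.Agent.Helper78.PL.GT

/-!
# Row WT of the sheet D5: the measure and transposition
-/

set_option autoImplicit false

namespace Pool.Agent.Helper78.D5

open Finset Pool.Agent.Helper33.DP Pool.Agent.Helper63.D4 Pool.Agent.Helper26.D5
open Pool.Agent.Helper78.PL

variable {w : ℕ}

theorem rdeg_tr (G : Gr w) (a : Fin w) : rdeg (tr G) a = cdeg G a := by
  unfold rdeg cdeg
  exact congrArg Finset.card (Finset.filter_congr fun x _ => mem_tr)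

theorem cdeg_tr (G : Gr w) (b : Fin w) : cdeg (tr G) b = rdeg G b := by
  unfold rdeg cdeg
  exact congrArg Finset.card (Finset.filter_congr fun x _ => mem_tr)

theorem hs_tr (G : Gr w) : hs (tr G) = hs G := by
  unfold hs
  simp only [rdeg_tr, cdeg_tr]
  exact add_comm _ _

theorem nb_tr (G : Gr w) : nb (tr G) = nb G := by
  unfold nb
  simp only [rdeg_tr, cdeg_tr]
  rw [add_comm]

theorem ac_tr {G : Gr w} (h : AC G) : AC (tr G) := by
  intro a a' b b' h1 h2 h3
  exact mem_tr.2 (h b b' a a' (mem_tr.1 h3) (mem_tr.1 h2) (mem_tr.1 h1))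

theorem vv_set_tr (G : Gr w) {t : ℝ}
    (h : ∃ G' : Gr w, IsCore G' ∧ G' ⊆ G ∧ AC G' ∧ t = nb G') :
    ∃ G' : Gr w, IsCore G' ∧ G' ⊆ tr G ∧ AC G' ∧ t = nb G' := by
  obtain ⟨G', h1, h2, h3, h4⟩ := h
  exact ⟨tr G', isCore_tr h1, tr_mono h2, ac_tr h3, by rw [nb_tr]; exact h4⟩

theorem vv_tr (G : Gr w) : vv (tr G) = vv G := by
  unfold vv
  have h : {t : ℝ | ∃ G' : Gr w, IsCore G' ∧ G' ⊆ tr G ∧ AC G' ∧ t = nb G'} =
      {t : ℝ | ∃ G' : Gr w, IsCore G' ∧ G' ⊆ G ∧ AC G' ∧ t = nb G'} := by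
    ext t
    constructor
    · intro ht
      have h1 := vv_set_tr (tr G) ht
      rw [tr_tr] at h1
      exact h1
    · intro ht
      exact vv_set_tr G ht
  rw [h]

theorem WT : ST_WT := by
  intro w G
  unfold WW
  rw [hs_tr, vv_tr]

theorem psi_tr (F : Fin w → Fin w → ℝ) : Psi (fun a b => F b a) = Psi F := by
  unfold Psi
  exact Finset.sum_comm

theorem lamG_tr (hWT : ST_WT) (G : Gr w) : lamG (tr G) = lamG G := by
  unfold lamG
  rw [card_tr, hWT w G]

end Pool.Agent.Helper78.D5
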